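import Pool.Agent.H232Z.Zon.Poly

/-! Harmonic extension of zonal polynomials and the size of their nodal sets on a sphere. -/

set_option autoImplicit false

open Finset MeasureTheory InnerProductSpace Laplacian
open scoped ENNReal NNReal

namespace Pool.Agent.H232Z.Zon

/-- Euclidean space of dimension `d + 3` -/
abbrev E (d : ℕ) := EuclideanSpace ℝ (Fin (d + 3))

variable {d : ℕ}

lemma second {f : E d → ℝ} (hf : ContDiff ℝ 2 f) (x v : E d) :
    iteratedFDeriv ℝ 2 f x ![v, v] = deriv (deriv fun τ : ℝ => f (x + τ • v)) 0 := by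
  have h1 : ContDiff ℝ 2 fun y => f (x + y) := hf.comp (contDiff_const.add contDiff_id)
  have h2 := (ContinuousLinearMap.toSpanSingleton ℝ v).iteratedFDeriv_comp_right h1 0 (i := 2) le_rfl
  have h3 : deriv (deriv fun τ : ℝ => f (x + τ • v)) = iteratedDeriv 2 fun τ : ℝ => f (x + τ • v) := by
    rw [iteratedDeriv_succ, iteratedDeriv_one]
  rw [h3, iteratedDeriv_eq_iteratedFDeriv]
  have h4 : (fun τ : ℝ => f (x + τ • v)) =
      (fun y => f (x + y)) ∘ ContinuousLinearMap.toSpanSingleton ℝ v := rfl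
  rw [h4, h2, iteratedFDeriv_comp_add_left]
  simp only [map_zero, add_zero, ContinuousMultilinearMap.compContinuousLinearMap_apply,
    ContinuousLinearMap.toSpanSingleton_apply, one_smul]
  congr 1
  funext i
  fin_cases i <;> rfl

lemma line2 (A a B b c : ℝ) (i j : ℕ) :
    deriv (deriv fun τ : ℝ => (A + a * τ) ^ i * (B + b * τ + c * τ ^ 2) ^ j) 0 =
      i * ((i - 1 : ℕ) : ℝ) * a ^ 2 * A ^ (i - 2) * B ^ j +
      2 * i * j * a * b * A ^ (i - 1) * B ^ (j - 1) +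
      A ^ i * (j * ((j - 1 : ℕ) : ℝ) * b ^ 2 * B ^ (j - 2) + 2 * c * j * B ^ (j - 1)) := by
  have h1 : ∀ τ : ℝ, HasDerivAt (fun τ : ℝ => A + a * τ) a τ := fun τ => by
    simpa using ((hasDerivAt_id τ).const_mul a).const_add A
  have h2 : ∀ τ : ℝ, HasDerivAt (fun τ : ℝ => B + b * τ + c * τ ^ 2) (b + 2 * c * τ) τ := fun τ => by
    have := (((hasDerivAt_id τ).const_mul b).const_add B).add ((hasDerivAt_pow 2 τ).const_mul c)
    refine HasDerivAt.congr_deriv this ?_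
    simp; ring
  have h3 : ∀ τ : ℝ, HasDerivAt (fun τ : ℝ => b + 2 * c * τ) (2 * c) τ := fun τ => by
    simpa using ((hasDerivAt_id τ).const_mul (2 * c)).const_add b
  have e : (deriv fun τ : ℝ => (A + a * τ) ^ i * (B + b * τ + c * τ ^ 2) ^ j) = fun τ =>
      i * (A + a * τ) ^ (i - 1) * a * (B + b * τ + c * τ ^ 2) ^ j +
      (A + a * τ) ^ i * (j * (B + b * τ + c * τ ^ 2) ^ (j - 1) * (b + 2 * c * τ)) := by
    funext τ
    exact (((h1 τ).fun_pow i).fun_mul ((h2 τ).fun_pow j)).deriv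
  rw [e]
  have := (((((h1 0).fun_pow (i - 1)).const_mul (i : ℝ)).mul_const a).fun_mul
    ((h2 0).fun_pow j)).fun_add (((h1 0).fun_pow i).fun_mul
      ((((h2 0).fun_pow (j - 1)).const_mul (j : ℝ)).fun_mul (h3 0)))
  rw [this.deriv, show i - 1 - 1 = i - 2 by omega, show j - 1 - 1 = j - 2 by omega]
  simp only [mul_zero, add_zero, ne_eq, OfNat.ofNat_ne_zero, not_false_eq_true, zero_pow]
  ring

/-- zonal monomials -/
noncomputable def M (i j : ℕ) (x : E d) : ℝ := (2 * x 0) ^ i * (4 * ‖x‖ ^ 2) ^ j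

lemma M_cd (i j : ℕ) (n : ℕ) : ContDiff ℝ n (M (d := d) i j) := by
  unfold M
  have h1 : ContDiff ℝ n fun x : E d => x 0 := by fun_prop
  have h2 : ContDiff ℝ n fun x : E d => ‖x‖ ^ 2 := contDiff_norm_sq ℝ
  exact ((contDiff_const.mul h1).pow i).mul ((contDiff_const.mul h2).pow j)

lemma lap_M (i j : ℕ) (x : E d) : Δ (M i j) x = 4 * (i * ((i - 1 : ℕ) : ℝ) * M (i - 2) j x +
    2 * j * (2 * i + 2 * j - 2 + (d + 3 : ℝ)) * M i (j - 1) x) := by
  rw [laplacian_eq_iteratedFDeriv_orthonormalBasis _ (EuclideanSpace.basisFun (Fin (d + 3)) ℝ)]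
  have e : ∀ l : Fin (d + 3), iteratedFDeriv ℝ 2 (M i j) x
      ![EuclideanSpace.basisFun (Fin (d + 3)) ℝ l, EuclideanSpace.basisFun (Fin (d + 3)) ℝ l] =
      (if l = 0 then 4 * (i * ((i - 1 : ℕ) : ℝ)) * M (i - 2) j x +
        32 * i * j * x 0 * (2 * x 0) ^ (i - 1) * (4 * ‖x‖ ^ 2) ^ (j - 1) else 0) +
      64 * (2 * x 0) ^ i * j * ((j - 1 : ℕ) : ℝ) * (4 * ‖x‖ ^ 2) ^ (j - 2) * x l ^ 2 +
      8 * j * M i (j - 1) x := by
    intro l
    rw [second (M_cd i j 2)]
    have : (fun τ : ℝ => M i j (x + τ • EuclideanSpace.basisFun (Fin (d + 3)) ℝ l)) = fun τ =>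
        (2 * x 0 + (if l = 0 then 2 else 0) * τ) ^ i *
          (4 * ‖x‖ ^ 2 + 8 * x l * τ + 4 * τ ^ 2) ^ j := by
      funext τ
      unfold M
      congr 2
      · by_cases h : l = 0
        · subst h; simp; ring
        · simp [h, Ne.symm h]
      · rw [norm_add_sq_real, inner_smul_right, EuclideanSpace.inner_basisFun_real, norm_smul,
          (EuclideanSpace.basisFun (Fin (d + 3)) ℝ).orthonormal.1 l, mul_one, Real.norm_eq_abs,
          sq_abs]
        ring
    rw [this, line2]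
    unfold M
    by_cases h : l = 0
    · subst h; simp only [if_true]; ring
    · simp only [if_neg h]; ring
  simp only [e, sum_add_distrib, sum_ite_eq', mem_univ, if_true, ← mul_sum, sum_const, card_univ,
    Fintype.card_fin, nsmul_eq_mul]
  rw [← EuclideanSpace.real_norm_sq_eq]
  have a1 : (i : ℝ) * (2 * x 0) ^ (i - 1) * (2 * x 0) = i * (2 * x 0) ^ i := by
    rcases i with _ | i
    · simp
    · rw [Nat.add_sub_cancel]; ring
  have a2 : (j : ℝ) * ((j - 1 : ℕ) : ℝ) * (4 * ‖x‖ ^ 2) ^ (j - 2) * (4 * ‖x‖ ^ 2) =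
      j * (j - 1) * (4 * ‖x‖ ^ 2) ^ (j - 1) := by
    rcases j with _ | _ | j
    · simp
    · simp
    · rw [show j + 1 + 1 - 2 = j by omega, show j + 1 + 1 - 1 = j + 1 by omega]
      push_cast; ring
  unfold M
  push_cast
  linear_combination 16 * j * (4 * ‖x‖ ^ 2) ^ (j - 1) * a1 + 16 * (2 * x 0) ^ i * a2

lemma lap_sum {ι : Type} (s : Finset ι) (c : ι → ℝ) (f : ι → E d → ℝ)
    (hf : ∀ j, ContDiff ℝ 2 (f j)) (x : E d) :
    Δ (∑ j ∈ s, c j • f j) x = ∑ j ∈ s, c j * Δ (f j) x := by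
  classical
  induction s using Finset.induction_on with
  | empty =>
    rw [sum_empty, sum_empty]
    exact congrFun (laplacian_const (c := (0 : ℝ))) x
  | insert a s ha ih =>
    have h1 : ContDiff ℝ 2 (∑ j ∈ s, c j • f j) := by
      rw [Finset.sum_fn]
      exact ContDiff.sum fun j _ => (hf j).const_smul (c j)
    have h2 : ContDiff ℝ 2 (c a • f a) := (hf a).const_smul (c a)
    rw [sum_insert ha, sum_insert ha, h2.contDiffAt.laplacian_add h1.contDiffAt, ih,
      laplacian_smul _ (hf a).contDiffAt, smul_eq_mul]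

lemma van_of_hom {f : E d → ℝ} (k j : ℕ) (hf : ContDiff ℝ j f) (h : ∀ x, f ((2 : ℝ) • x) = 2 ^ k * f x)
    (hj : j < k) : iteratedFDeriv ℝ j f 0 = 0 := by
  have h1 := ((2 : ℝ) • ContinuousLinearMap.id ℝ (E d)).iteratedFDeriv_comp_right hf 0 (i := j) le_rfl
  have h2 : f ∘ ((2 : ℝ) • ContinuousLinearMap.id ℝ (E d)) = (2 ^ k : ℝ) • f := by
    funext x; simp [h]
  rw [h2, iteratedFDeriv_const_smul_apply hf.contDiffAt, map_zero] at h1
  ext v
  have h3 := congrArg (fun T => T v) h1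
  simp only [ContinuousMultilinearMap.smul_apply,
    ContinuousMultilinearMap.compContinuousLinearMap_apply, ContinuousLinearMap.smul_apply,
    ContinuousLinearMap.id_apply, smul_eq_mul] at h3
  rw [ContinuousMultilinearMap.map_smul_univ] at h3
  simp only [prod_const, card_univ, Fintype.card_fin, smul_eq_mul] at h3
  have h4 : (2 : ℝ) ^ j < 2 ^ k := pow_lt_pow_right₀ (by norm_num) hj
  have h5 : ((2 : ℝ) ^ k - 2 ^ j) * iteratedFDeriv ℝ j f 0 v = 0 := by linarith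
  simpa using (mul_eq_zero.1 h5).resolve_left (by linarith)

/-- `u` is a harmonic extension of the zonal polynomial `p` vanishing to order `N` -/
structure Ext (N : ℕ) (p : Polynomial ℝ) (u : E d → ℝ) : Prop where
  cd : ∀ n : ℕ, ContDiff ℝ n u
  lap : ∀ x, Δ u x = 0
  van : ∀ j < N, iteratedFDeriv ℝ j u 0 = 0
  val : ∀ x, ‖x‖ = 1 / 2 → u x = p.eval (2 * x 0)

lemma ext_P (k : ℕ) : ∃ u : E d → ℝ, Ext k (P (d + 3) k) u := by
  have hν : (2 : ℝ) < d + 3 := by linarith [Nat.cast_nonneg (α := ℝ) d]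
  have cd : ∀ n : ℕ, ContDiff ℝ n (∑ j ∈ range (k + 1), cc (d + 3) k j • M (d := d) (k - 2 * j) j) := by
    intro n
    rw [Finset.sum_fn]
    exact ContDiff.sum fun j _ => (M_cd (k - 2 * j) j n).const_smul (cc (d + 3) k j)
  refine ⟨_, cd, fun x => ?_, fun j hj => van_of_hom k j (cd j) (fun x => ?_) hj, fun x hx => ?_⟩
  · rw [lap_sum _ _ _ (fun j => M_cd _ _ 2)]
    have := tele hν k fun j => 4 * M (k - 2 * j) (j - 1) x
    rw [← this]
    refine sum_congr rfl fun j _ => ?_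
    by_cases h : k < 2 * j
    · simp [cc_zero _ h]
    · rw [lap_M, show k - 2 * j - 2 = k - 2 * (j + 1) by omega, ca, cb, Nat.add_sub_cancel,
        show ((k - 2 * j : ℕ) : ℝ) = k - 2 * j by rw [Nat.cast_sub (by omega)]; push_cast; ring]
      simp only [smul_eq_mul]
      ring
  · rw [Finset.sum_apply, Finset.sum_apply, mul_sum]
    refine sum_congr rfl fun j _ => ?_
    by_cases h : k < 2 * j
    · simp [cc_zero _ h]
    · obtain ⟨i, rfl⟩ : ∃ i, k = i + 2 * j := ⟨k - 2 * j, by omega⟩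
      simp only [Pi.smul_apply, smul_eq_mul, M, Nat.add_sub_cancel, norm_smul, PiLp.smul_apply,
        Real.norm_ofNat, pow_add, pow_mul, mul_pow]
      ring
  · rw [Finset.sum_apply, P, Polynomial.eval_finset_sum]
    refine sum_congr rfl fun j _ => ?_
    simp only [Pi.smul_apply, smul_eq_mul, M, hx, Polynomial.eval_smul, Polynomial.eval_pow,
      Polynomial.eval_X]
    norm_num

lemma ext_W {N : ℕ} {p : Polynomial ℝ} (h : p ∈ W (d + 3) N) : ∃ u : E d → ℝ, Ext N p u := by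
  induction h using Submodule.span_induction with
  | mem p hp =>
    obtain ⟨k, hk, rfl⟩ := hp
    obtain ⟨u, hu⟩ := ext_P (d := d) k
    exact ⟨u, hu.cd, hu.lap, fun j hj => hu.van j (by omega), hu.val⟩
  | zero =>
    exact ⟨fun _ => 0, fun _ => contDiff_const, fun x => congrFun laplacian_const x,
      fun j _ => by simp, fun x _ => by simp⟩
  | add p q _ _ hp hq =>
    obtain ⟨u, hu⟩ := hp
    obtain ⟨v, hv⟩ := hq
    refine ⟨u + v, fun n => (hu.cd n).add (hv.cd n), fun x => ?_, fun j hj => ?_, fun x hx => ?_⟩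
    · rw [(hu.cd 2).contDiffAt.laplacian_add (hv.cd 2).contDiffAt, hu.lap, hv.lap, add_zero]
    · rw [iteratedFDeriv_add_apply (hu.cd j).contDiffAt (hv.cd j).contDiffAt, hu.van j hj,
        hv.van j hj, add_zero]
    · rw [Pi.add_apply, hu.val x hx, hv.val x hx, Polynomial.eval_add]
  | smul a p _ hp =>
    obtain ⟨u, hu⟩ := hp
    refine ⟨a • u, fun n => (hu.cd n).const_smul a, fun x => ?_, fun j hj => ?_, fun x hx => ?_⟩
    · rw [laplacian_smul _ (hu.cd 2).contDiffAt, hu.lap, smul_zero]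
    · rw [iteratedFDeriv_const_smul_apply (hu.cd j).contDiffAt, hu.van j hj, smul_zero]
    · rw [Pi.smul_apply, hu.val x hx, Polynomial.eval_smul]

/-- the equator of the unit sphere -/
def Eq (d : ℕ) : Set (E d) := {x | x 0 = 0 ∧ ‖x‖ = 1}

lemma norm_split (x : E d) :
    ‖x‖ ^ 2 = x 0 ^ 2 + x 1 ^ 2 + ∑ j : Fin (d + 1), x j.succ.succ ^ 2 := by
  rw [EuclideanSpace.real_norm_sq_eq, Fin.sum_univ_succ, Fin.sum_univ_succ]
  exact (add_assoc _ _ _).symm

lemma Eq_fin : Measure.hausdorffMeasure ((d : ℝ) + 1) (Eq d) < ⊤ := by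
  let Φ : ℝ → (Fin (d + 1) → ℝ) → E d := fun s y => WithLp.toLp 2
    (Fin.cons 0 (Fin.cons (s * ((∑ j, y j ^ 2) - 1) / ((∑ j, y j ^ 2) + 1))
      fun j => 2 * y j / ((∑ j, y j ^ 2) + 1)))
  have hq : ∀ y : Fin (d + 1) → ℝ, (∑ j, y j ^ 2) + 1 ≠ 0 := fun y => by positivity
  have cd : ∀ s, ContDiff ℝ 1 (Φ s) := by
    intro s
    rw [contDiff_euclidean]
    intro i
    refine Fin.cases ?_ (fun i => Fin.cases ?_ (fun i => ?_) i) i
    · exact contDiff_const
    · show ContDiff ℝ 1 fun y : Fin (d + 1) → ℝ =>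
        s * ((∑ j, y j ^ 2) - 1) / ((∑ j, y j ^ 2) + 1)
      exact ContDiff.div (by fun_prop) (by fun_prop) hq
    · show ContDiff ℝ 1 fun y : Fin (d + 1) → ℝ => 2 * y i / ((∑ j, y j ^ 2) + 1)
      exact ContDiff.div (by fun_prop) (by fun_prop) hq
  have fin : ∀ s, Measure.hausdorffMeasure ((d : ℝ) + 1) (Φ s '' Metric.closedBall 0 1) < ⊤ := by
    intro s
    obtain ⟨K, hK⟩ := (cd s).contDiffOn.exists_lipschitzOnWith (s := Metric.closedBall 0 1)
      one_ne_zero (convex_closedBall _ _) (isCompact_closedBall _ _)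
    refine (hK.hausdorffMeasure_image_le (by positivity)).trans_lt (ENNReal.mul_lt_top
      (ENNReal.rpow_lt_top_of_nonneg (by positivity) ENNReal.coe_ne_top) ?_)
    have := hausdorffMeasure_pi_real (ι := Fin (d + 1))
    rw [Fintype.card_fin, Nat.cast_add, Nat.cast_one] at this
    rw [this]
    exact (isCompact_closedBall _ _).measure_lt_top
  have cov : ∀ s : ℝ, s ^ 2 = 1 → ∀ x ∈ Eq d, s * x 1 ≤ 0 → x ∈ Φ s '' Metric.closedBall 0 1 := by
    rintro s hs x ⟨h0, h1⟩ h2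
    have hn := norm_split x
    rw [h0, h1] at hn
    have hp : 0 < 1 - s * x 1 := by linarith
    have hy : (∑ j : Fin (d + 1), (x j.succ.succ / (1 - s * x 1)) ^ 2) =
        (1 + s * x 1) / (1 - s * x 1) := by
      simp only [div_pow, ← sum_div]
      rw [show (∑ j : Fin (d + 1), x j.succ.succ ^ 2) = (1 + s * x 1) * (1 - s * x 1) by
        linear_combination -hn + x 1 ^ 2 * hs]
      field_simp
    refine ⟨fun j => x j.succ.succ / (1 - s * x 1), ?_, ?_⟩
    · rw [mem_closedBall_zero_iff, pi_norm_le_iff_of_nonneg zero_le_one]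
      intro j
      rw [norm_div, Real.norm_of_nonneg hp.le, div_le_one hp]
      have := PiLp.norm_apply_le x j.succ.succ
      linarith
    · ext i
      refine Fin.cases ?_ (fun i => Fin.cases ?_ (fun i => ?_) i) i
      · exact h0.symm
      · show s * ((∑ j : Fin (d + 1), (x j.succ.succ / (1 - s * x 1)) ^ 2) - 1) /
          ((∑ j : Fin (d + 1), (x j.succ.succ / (1 - s * x 1)) ^ 2) + 1) = x 1
        rw [hy]
        field_simp
        linear_combination 2 * x 1 * hs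
      · show 2 * (x i.succ.succ / (1 - s * x 1)) /
          ((∑ j : Fin (d + 1), (x j.succ.succ / (1 - s * x 1)) ^ 2) + 1) = x i.succ.succ
        rw [hy]
        field_simp
        ring
  refine lt_of_le_of_lt (measure_mono (t := Φ 1 '' Metric.closedBall 0 1 ∪
    Φ (-1) '' Metric.closedBall 0 1) fun x hx => ?_)
    ((measure_union_le _ _).trans_lt (ENNReal.add_lt_top.2 ⟨fin 1, fin (-1)⟩))
  rcases le_total (x 1) 0 with h | h
  · exact Or.inl (cov 1 (by norm_num) x hx (by linarith))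
  · exact Or.inr (cov (-1) (by norm_num) x hx (by linarith))

lemma circle_le (t : ℝ) (ρ : ℝ≥0) (hρ1 : ρ ≤ 1) (h : 1 - t ^ 2 ≤ (ρ : ℝ) ^ 2) :
    Measure.hausdorffMeasure ((d : ℝ) + 1) {x : E d | ‖x‖ = 1 / 2 ∧ 2 * x 0 = t} ≤
      ρ * Measure.hausdorffMeasure ((d : ℝ) + 1) (Eq d) := by
  let r := √(1 - t ^ 2) / 2
  let e : E d := EuclideanSpace.single 0 (t / 2)
  have r0 : 0 ≤ r := by positivity
  have r1 : r ≤ ρ := by
    have : √(1 - t ^ 2) ≤ ρ := Real.sqrt_le_iff.2 ⟨ρ.2, h⟩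
    have := ρ.2
    show √(1 - t ^ 2) / 2 ≤ ρ
    linarith [Real.sqrt_nonneg (1 - t ^ 2)]
  have lip : LipschitzWith ρ fun y : E d => e + r • y := by
    refine LipschitzWith.of_dist_le_mul fun a b => ?_
    rw [dist_add_left, dist_smul₀, Real.norm_of_nonneg r0]
    exact mul_le_mul_of_nonneg_right r1 dist_nonneg
  have sub : {x : E d | ‖x‖ = 1 / 2 ∧ 2 * x 0 = t} ⊆ (fun y : E d => e + r • y) '' Eq d := by
    rintro x ⟨h1, h2⟩
    have hn := EuclideanSpace.real_norm_sq_eq x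
    have hn' := EuclideanSpace.real_norm_sq_eq (x - e)
    rw [Fin.sum_univ_succ] at hn hn'
    have e0 : (x - e) 0 = 0 := by simp [e]; linarith
    have e1 : ∀ j : Fin (d + 2), (x - e) j.succ = x j.succ := fun j => by simp [e]
    simp only [e0, e1] at hn'
    have hr : ‖x - e‖ = r := by
      have : 1 - t ^ 2 = (2 * ‖x - e‖) ^ 2 := by
        rw [h1] at hn
        rw [← h2]
        nlinarith
      show _ = √(1 - t ^ 2) / 2
      rw [this, Real.sqrt_sq (by positivity)]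
      ring
    rcases r0.eq_or_lt with h0 | h0
    · refine ⟨EuclideanSpace.single 1 1, ⟨by simp, by simp⟩, ?_⟩
      rw [← h0] at hr ⊢
      simp [(sub_eq_zero.1 (norm_eq_zero.1 hr))]
    · refine ⟨r⁻¹ • (x - e), ⟨by rw [PiLp.smul_apply, e0, smul_zero], ?_⟩, ?_⟩
      · rw [norm_smul, hr, norm_inv, Real.norm_of_nonneg r0, inv_mul_cancel₀ h0.ne']
      · simp only [smul_inv_smul₀ h0.ne', add_sub_cancel]
  refine (measure_mono sub).trans ((lip.hausdorffMeasure_image_le (by positivity) _).trans ?_)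
  gcongr
  calc (ρ : ℝ≥0∞) ^ ((d : ℝ) + 1) ≤ (ρ : ℝ≥0∞) ^ (1 : ℝ) :=
        ENNReal.rpow_le_rpow_of_exponent_ge (by exact_mod_cast hρ1)
          (by linarith [Nat.cast_nonneg (α := ℝ) d])
    _ = ρ := ENNReal.rpow_one _

theorem main (N : ℕ) (ε : ℝ≥0∞) (hε : 0 < ε) : ∃ u : E d → ℝ,
    HarmonicOnNhd u (Metric.ball 0 1) ∧ (∃ x ∈ Metric.ball (0 : E d) 1, u x ≠ 0) ∧
    (∀ k < N, iteratedFDeriv ℝ k u 0 = 0) ∧
    Measure.hausdorffMeasure ((d : ℝ) + 1) {x : E d | ‖x‖ = 1 / 2 ∧ u x = 0} < ε := by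
  have hν : (2 : ℝ) < d + 3 := by linarith [Nat.cast_nonneg (α := ℝ) d]
  obtain ⟨K, hK⟩ := exists_poly hν N
  set H := Measure.hausdorffMeasure ((d : ℝ) + 1) (Eq d) with hH
  have hfin : ((K + 1 : ℕ) : ℝ≥0∞) * H ≠ ⊤ := ENNReal.mul_ne_top (by simp) Eq_fin.ne
  obtain ⟨ρ0, ρ00, hρ⟩ := ENNReal.exists_nnreal_pos_mul_lt hfin hε.ne'
  obtain ⟨ρ, ρp, ρ1, ρ2⟩ : ∃ ρ : ℝ≥0, 0 < ρ ∧ ρ ≤ 1 ∧ ρ ≤ ρ0 :=
    ⟨min 1 ρ0, lt_min one_pos ρ00, min_le_left _ _, min_le_right _ _⟩
  have ρp' : (0 : ℝ) < ρ := ρp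
  have ρ1' : (ρ : ℝ) ≤ 1 := ρ1
  obtain ⟨a, q, hW, hdeg, hq⟩ := hK ((ρ : ℝ) ^ 2 / 2) (by positivity)
  obtain ⟨u, hu⟩ := ext_W hW
  have q0 : q.eval 0 ≠ 0 := hq 0 (by norm_num) (by nlinarith)
  have qne : q ≠ 0 := by rintro rfl; simp at q0
  refine ⟨u, fun x _ => ⟨(hu.cd 2).contDiffAt, Filter.Eventually.of_forall hu.lap⟩,
    ⟨EuclideanSpace.single 1 (1 / 2), by simp; norm_num, ?_⟩, hu.van, ?_⟩
  · rw [hu.val _ (by simp)]
    simpa using q0
  classical
  let T : Finset ℝ := insert (-1) (q.roots.toFinset.filter fun t => 1 - (ρ : ℝ) ^ 2 / 2 < t)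
  have card : T.card ≤ K + 1 :=
    (card_insert_le _ _).trans (Nat.succ_le_succ ((card_filter_le _ _).trans
      ((Multiset.toFinset_card_le _).trans ((Polynomial.card_roots' q).trans hdeg))))
  have sub : {x : E d | ‖x‖ = 1 / 2 ∧ u x = 0} ⊆
      ⋃ t ∈ T, {x : E d | ‖x‖ = 1 / 2 ∧ 2 * x 0 = t} := by
    rintro x ⟨h1, h2⟩
    refine Set.mem_biUnion (x := 2 * x 0) ?_ ⟨h1, rfl⟩
    rw [hu.val x h1] at h2
    simp only [Polynomial.eval_mul, Polynomial.eval_pow, Polynomial.eval_add, Polynomial.eval_one,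
      Polynomial.eval_X, mul_eq_zero] at h2
    have b := PiLp.norm_apply_le x 0
    rw [h1, Real.norm_eq_abs, abs_le] at b
    simp only [T, coe_insert, coe_filter, Set.mem_insert_iff, Set.mem_setOf_eq,
      Multiset.mem_toFinset, Polynomial.mem_roots qne]
    rcases h2 with h2 | h2
    · left; linarith [pow_eq_zero_iff' .. |>.1 h2 |>.1]
    · refine Or.inr ⟨h2, ?_⟩
      by_contra hc
      exact hq _ (by linarith [b.1]) (not_lt.1 hc) h2
  refine lt_of_le_of_lt ((measure_mono sub).trans (measure_biUnion_finset_le _ _)) ?_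
  refine lt_of_le_of_lt (sum_le_card_nsmul _ _ (ρ * H) fun t ht => circle_le t ρ ρ1 ?_) ?_
  · rcases mem_insert.1 ht with rfl | ht
    · nlinarith
    · nlinarith [(mem_filter.1 ht).2, sq_nonneg (1 - t)]
  · refine lt_of_le_of_lt ?_ hρ
    rw [nsmul_eq_mul, mul_left_comm]
    gcongr

end Pool.Agent.H232Z.Zon
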