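import Mathlib

/-! Zonal polynomials on the interval and polynomials with zeros close to the end point. -/

set_option autoImplicit false

open Polynomial Finset

namespace Pool.Agent.H232Z.Zon

/-- first coefficient sequence -/
noncomputable def ca (k j : ℕ) : ℝ := ((k - 2 * j : ℕ) : ℝ) * ((k - 2 * j - 1 : ℕ) : ℝ)

/-- second coefficient sequence -/
noncomputable def cb (ν : ℝ) (k j : ℕ) : ℝ := 2 * j * (2 * k - 2 * j + ν - 2)

/-- coefficients of the zonal polynomial of degree `k` -/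
noncomputable def cc (ν : ℝ) (k : ℕ) : ℕ → ℝ
  | 0 => 1
  | j + 1 => -(cc ν k j * ca k j) / cb ν k (j + 1)

lemma cc_zero (ν : ℝ) {k j : ℕ} (h : k < 2 * j) : cc ν k j = 0 := by
  cases j with
  | zero => omega
  | succ j =>
    have : k - 2 * j - 1 = 0 := by omega
    simp [cc, ca, this]

lemma tele {M : Type} [AddCommGroup M] [Module ℝ M] {ν : ℝ} (hν : 2 < ν) (k : ℕ) (f : ℕ → M) :
    ∑ j ∈ range (k + 1), cc ν k j • (ca k j • f (j + 1) + cb ν k j • f j) = 0 := by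
  have : ∀ J, J ≤ k → ∑ j ∈ range (J + 1), cc ν k j • (ca k j • f (j + 1) + cb ν k j • f j) =
      (cc ν k J * ca k J) • f (J + 1) := by
    intro J
    induction J with
    | zero => intro _; simp [cb, cc]
    | succ J ih =>
      intro h
      have hb : cb ν k (J + 1) ≠ 0 := by
        have : ((J + 1 : ℕ) : ℝ) ≤ k := by exact_mod_cast h
        have h0 : (0 : ℝ) < ((J + 1 : ℕ) : ℝ) := by positivity
        unfold cb
        apply mul_ne_zero <;> linarith
      have e : cc ν k (J + 1) * cb ν k (J + 1) = -(cc ν k J * ca k J) := by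
        rw [cc, div_mul_cancel₀ _ hb]
      rw [sum_range_succ, ih (by omega), smul_add, smul_smul, smul_smul, e]
      module
  rw [this k le_rfl]
  have : k - 2 * k = 0 := by omega
  simp [ca, this]

/-- the zonal polynomial -/
noncomputable def P (ν : ℝ) (k : ℕ) : ℝ[X] := ∑ j ∈ range (k + 1), cc ν k j • X ^ (k - 2 * j)

/-- the spherical Laplacian on zonal functions -/
noncomputable def Lop (ν : ℝ) : ℝ[X] →ₗ[ℝ] ℝ[X] :=
  LinearMap.mulLeft ℝ (1 - X ^ 2) ∘ₗ derivative ∘ₗ derivative -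
    (ν - 1) • LinearMap.mulLeft ℝ X ∘ₗ derivative

lemma Lop_apply (ν : ℝ) (p : ℝ[X]) :
    Lop ν p = (1 - X ^ 2) * derivative (derivative p) - C (ν - 1) * (X * derivative p) := by
  simp [Lop, smul_eq_C_mul]

lemma Lop_pow (ν : ℝ) (i : ℕ) : Lop ν (X ^ i) =
    ((i : ℝ) * ((i - 1 : ℕ) : ℝ)) • X ^ (i - 2) - ((i : ℝ) * (i + ν - 2)) • X ^ i := by
  rw [Lop_apply]
  rcases i with _ | _ | i
  · simp
  · simp [smul_eq_C_mul]
    rw [map_ofNat]
    ring
  · simp only [derivative_X_pow, derivative_mul, derivative_C, smul_eq_C_mul, Nat.add_sub_cancel,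
      Nat.add_succ_sub_one, map_mul, map_add, map_sub, map_natCast, derivative_natCast,
      show i + 1 + 1 - 2 = i by omega, map_ofNat, map_one]
    push_cast
    ring

lemma Lop_P {ν : ℝ} (hν : 2 < ν) (k : ℕ) : Lop ν (P ν k) = -((k : ℝ) * (k + ν - 2)) • P ν k := by
  have := tele hν k fun j => (X : ℝ[X]) ^ (k - 2 * j)
  rw [neg_smul, eq_neg_iff_add_eq_zero, ← this, P, map_sum, smul_sum, ← sum_add_distrib]
  refine sum_congr rfl fun j _ => ?_
  by_cases h : k < 2 * j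
  · simp [cc_zero ν h]
  · rw [map_smul, Lop_pow, show k - 2 * j - 2 = k - 2 * (j + 1) by omega, ca, cb,
      show ((k - 2 * j : ℕ) : ℝ) = k - 2 * j by rw [Nat.cast_sub (by omega)]; push_cast; ring]
    module

/-- the span of the zonal polynomials of degree at least `N` -/
noncomputable def W (ν : ℝ) (N : ℕ) : Submodule ℝ ℝ[X] :=
  Submodule.span ℝ {p | ∃ k, N ≤ k ∧ p = P ν k}

lemma W_zero (ν : ℝ) (p : ℝ[X]) : p ∈ W ν 0 := by
  have hX : ∀ k, (X : ℝ[X]) ^ k ∈ W ν 0 := by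
    intro k
    induction k using Nat.strong_induction_on with
    | _ k ih =>
      have h1 : P ν k ∈ W ν 0 := Submodule.subset_span ⟨k, Nat.zero_le _, rfl⟩
      rw [P, sum_range_succ'] at h1
      have h2 : ∑ j ∈ range k, cc ν k (j + 1) • (X : ℝ[X]) ^ (k - 2 * (j + 1)) ∈ W ν 0 :=
        Submodule.sum_mem _ fun j hj => Submodule.smul_mem _ _
          (ih _ (by have := mem_range.1 hj; omega))
      simpa [cc] using Submodule.sub_mem _ h1 h2
  induction p using Polynomial.induction_on' with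
  | add p q hp hq => exact Submodule.add_mem _ hp hq
  | monomial n a =>
    rw [← C_mul_X_pow_eq_monomial, ← smul_eq_C_mul]
    exact Submodule.smul_mem _ _ (hX n)

lemma W_step {ν : ℝ} (hν : 2 < ν) (N : ℕ) {p : ℝ[X]} (h : p ∈ W ν N) :
    Lop ν p + ((N : ℝ) * (N + ν - 2)) • p ∈ W ν (N + 1) := by
  induction h using Submodule.span_induction with
  | mem p hp =>
    obtain ⟨k, hk, rfl⟩ := hp
    rw [Lop_P hν, ← add_smul]
    rcases hk.eq_or_lt with rfl | hk
    · simp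
    · exact Submodule.smul_mem _ _ (Submodule.subset_span ⟨k, hk, rfl⟩)
  | zero => simp
  | add p q _ _ hp hq =>
    convert Submodule.add_mem _ hp hq using 1
    rw [map_add, smul_add]; abel
  | smul a p _ hp =>
    convert Submodule.smul_mem _ a hp using 1
    rw [map_smul]; module

/-- families of polynomials depending polynomially, with degree below `d`, on a parameter -/
noncomputable def Sm (d : ℕ) : Submodule ℝ (ℝ → ℝ[X]) :=
  Submodule.span ℝ {F | ∃ i < d, ∃ r : ℝ[X], F = fun m => m ^ i • r}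

lemma Sm_map {d e : ℕ} (s : ℕ) (hs : d + s ≤ e) (T : ℝ[X] →ₗ[ℝ] ℝ[X]) {F : ℝ → ℝ[X]}
    (h : F ∈ Sm d) : (fun m => m ^ s • T (F m)) ∈ Sm e := by
  induction h using Submodule.span_induction with
  | mem F hF =>
    obtain ⟨i, hi, r, rfl⟩ := hF
    refine Submodule.subset_span ⟨i + s, by omega, T r, ?_⟩
    funext m
    rw [map_smul, smul_smul, pow_add, mul_comm]
  | zero =>
    convert Submodule.zero_mem _ using 1
    funext m; simp
  | add F G _ _ hF hG =>
    convert Submodule.add_mem _ hF hG using 1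
    funext m; simp
  | smul a F _ hF =>
    convert Submodule.smul_mem _ a hF using 1
    funext m; simp only [Pi.smul_apply, map_smul]; module

lemma Sm_bound {d : ℕ} {F : ℝ → ℝ[X]} (h : F ∈ Sm d) : ∃ (B : ℝ) (K : ℕ), 0 ≤ B ∧ ∀ m : ℝ, 1 ≤ m →
    (F m).natDegree ≤ K ∧ ∀ t : ℝ, |t| ≤ 1 → |(F m).eval t| * m ≤ B * m ^ d := by
  induction h using Submodule.span_induction with
  | mem F hF =>
    obtain ⟨i, hi, r, rfl⟩ := hF
    obtain ⟨B, hB⟩ := (isCompact_Icc (a := (-1 : ℝ)) (b := 1)).exists_bound_of_continuousOn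
      r.continuous.continuousOn
    have B0 : 0 ≤ B := (norm_nonneg _).trans (hB 0 (by simp))
    refine ⟨B, r.natDegree, B0, fun m hm => ⟨natDegree_smul_le _ _, fun t ht => ?_⟩⟩
    have h1 : m ^ (i + 1) ≤ m ^ d := pow_le_pow_right₀ hm hi
    have h2 : |r.eval t| ≤ B := hB t (abs_le.1 ht)
    have h3 : 0 ≤ m ^ (i + 1) := by positivity
    rw [eval_smul, smul_eq_mul, abs_mul, abs_of_nonneg (by positivity : 0 ≤ m ^ i)]
    calc m ^ i * |r.eval t| * m = |r.eval t| * m ^ (i + 1) := by ring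
      _ ≤ B * m ^ d := mul_le_mul h2 h1 h3 B0
  | zero => exact ⟨0, 0, le_rfl, fun m _ => by simp⟩
  | add F G _ _ hF hG =>
    obtain ⟨B, K, B0, h1⟩ := hF
    obtain ⟨B', K', B0', h2⟩ := hG
    refine ⟨B + B', max K K', by positivity, fun m hm => ⟨?_, fun t ht => ?_⟩⟩
    · exact (natDegree_add_le _ _).trans (max_le_max (h1 m hm).1 (h2 m hm).1)
    · have a1 := (h1 m hm).2 t ht
      have a2 := (h2 m hm).2 t ht
      have a3 := mul_le_mul_of_nonneg_right (abs_add_le ((F m).eval t) ((G m).eval t))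
        (show 0 ≤ m by linarith)
      rw [Pi.add_apply, eval_add]
      linarith
  | smul a F _ hF =>
    obtain ⟨B, K, B0, h1⟩ := hF
    refine ⟨|a| * B, K, by positivity, fun m hm => ⟨(natDegree_smul_le _ _).trans (h1 m hm).1,
      fun t ht => ?_⟩⟩
    have a1 := mul_le_mul_of_nonneg_left ((h1 m hm).2 t ht) (abs_nonneg a)
    rw [Pi.smul_apply, eval_smul, smul_eq_mul, abs_mul]
    linarith

lemma family {ν : ℝ} (hν : 2 < ν) (N : ℕ) : ∃ R ∈ Sm (2 * N), ∀ a : ℕ,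
    (1 + X) ^ a * (((a + N : ℕ) : ℝ) ^ (2 * N) • (1 - X) ^ N + R (a + N : ℕ)) ∈ W ν N := by
  induction N with
  | zero => exact ⟨0, Submodule.zero_mem _, fun a => W_zero ν _⟩
  | succ N ih =>
    obtain ⟨R, hR, h⟩ := ih
    have hq : (fun m : ℝ => m ^ (2 * N) • (1 - X : ℝ[X]) ^ N + R m) ∈ Sm (2 * N + 1) := by
      refine Submodule.add_mem _ (Submodule.subset_span ⟨2 * N, by omega, _, rfl⟩) ?_
      simpa using Sm_map 0 (show 2 * N + 0 ≤ 2 * N + 1 by omega) LinearMap.id hR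
    let D : ℝ[X] →ₗ[ℝ] ℝ[X] := derivative
    let T1 : ℝ[X] →ₗ[ℝ] ℝ[X] := LinearMap.mulLeft ℝ (-(2 * (N : ℝ[X]) + 1) * (1 - X) - C (ν - 1) * X) +
      LinearMap.mulLeft ℝ (2 * (1 - X) * (1 + X) : ℝ[X]) ∘ₗ D
    let T0 : ℝ[X] →ₗ[ℝ] ℝ[X] := LinearMap.mulLeft ℝ ((((N : ℝ[X]) ^ 2 + (N : ℝ[X])) * (1 - X) + (N : ℝ[X]) * C (ν - 1) * X) +
        C ((N : ℝ) * (N + ν - 2)) * (1 + X)) +
      LinearMap.mulLeft ℝ (-(2 * (N : ℝ[X]) * (1 - X) * (1 + X)) - C (ν - 1) * X * (1 + X)) ∘ₗ D +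
      LinearMap.mulLeft ℝ ((1 - X) * (1 + X) ^ 2 : ℝ[X]) ∘ₗ D ∘ₗ D
    have r2 := Sm_map 2 (show 2 * N + 2 ≤ 2 * (N + 1) by omega) (LinearMap.mulLeft ℝ (1 - X)) hR
    have r1 := Sm_map 1 (show 2 * N + 1 + 1 ≤ 2 * (N + 1) by omega) T1 hq
    have r0 := Sm_map 0 (show 2 * N + 1 + 0 ≤ 2 * (N + 1) by omega) T0 hq
    refine ⟨_, Submodule.add_mem _ (Submodule.add_mem _ r2 r1) r0, fun a => ?_⟩
    have := W_step hν N (h (a + 1))
    convert this using 1
    rw [show a + 1 + N = a + (N + 1) by omega]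
    simp only [Pi.add_apply]
    obtain ⟨q, hq⟩ : ∃ q, q = ((a + (N + 1) : ℕ) : ℝ) ^ (2 * N) • (1 - X : ℝ[X]) ^ N +
      R (a + (N + 1) : ℕ) := ⟨_, rfl⟩
    have e : ((a + (N + 1) : ℕ) : ℝ) ^ (2 * (N + 1)) • (1 - X : ℝ[X]) ^ (N + 1) +
        ((a + (N + 1) : ℕ) : ℝ) ^ 2 • (LinearMap.mulLeft ℝ (1 - X)) (R (a + (N + 1) : ℕ)) =
        ((a + (N + 1) : ℕ) : ℝ) ^ 2 • ((1 - X) * q) := by
      rw [hq]
      simp only [LinearMap.mulLeft_apply, smul_eq_C_mul, map_pow]
      ring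
    rw [← add_assoc, ← add_assoc, e, ← hq, Lop_apply]
    have d1 : derivative ((1 + X : ℝ[X]) ^ (a + 1)) = ((a : ℝ[X]) + 1) * (1 + X) ^ a := by
      rw [derivative_pow]; simp
    have d2 : (1 + X : ℝ[X]) * derivative ((1 + X : ℝ[X]) ^ a) = (a : ℝ[X]) * (1 + X) ^ a := by
      rcases a with _ | a
      · simp
      · rw [derivative_pow]; simp; ring
    simp only [T1, T0, D, LinearMap.add_apply, LinearMap.comp_apply, LinearMap.mulLeft_apply,
      derivative_mul, derivative_add, d1, smul_eq_C_mul, map_pow, map_natCast, derivative_natCast,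
      derivative_one, pow_zero, pow_one, map_one]
    push_cast
    linear_combination (-(1 - X) * ((a : ℝ[X]) + 1) * q) * d2

theorem exists_poly {ν : ℝ} (hν : 2 < ν) (N : ℕ) : ∃ K : ℕ, ∀ δ : ℝ, 0 < δ → ∃ (a : ℕ) (q : ℝ[X]),
    (1 + X) ^ a * q ∈ W ν N ∧ q.natDegree ≤ K ∧ ∀ t : ℝ, -1 ≤ t → t ≤ 1 - δ → q.eval t ≠ 0 := by
  obtain ⟨R, hR, h⟩ := family hν N
  obtain ⟨B, K, B0, hB⟩ := Sm_bound hR
  refine ⟨max N K, fun δ hδ => ?_⟩
  obtain ⟨a, ha⟩ := exists_nat_gt (B / δ ^ N + 1)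
  have hp : 0 < δ ^ N := by positivity
  have h0 : 0 ≤ B / δ ^ N := by positivity
  have hm : (a : ℝ) ≤ ((a + N : ℕ) : ℝ) := by push_cast; linarith [Nat.cast_nonneg (α := ℝ) N]
  have h := h a
  generalize ((a + N : ℕ) : ℝ) = m at *
  obtain ⟨b1, b2⟩ := hB m (by linarith)
  refine ⟨a, _, h, (natDegree_add_le _ _).trans (max_le_max ?_ b1), fun t t0 t1 => ?_⟩
  · refine (natDegree_smul_le _ _).trans (natDegree_pow_le.trans ?_)
    have : (1 - X : ℝ[X]).natDegree ≤ 1 := by compute_degree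
    nlinarith
  · have c1 := b2 t (abs_le.2 ⟨t0, by linarith⟩)
    have c2 : δ ^ N ≤ (1 - t) ^ N := pow_le_pow_left₀ hδ.le (by linarith) N
    have c3 : B < m * δ ^ N := by
      rw [← div_lt_iff₀ hp]; linarith
    have m0 : 0 < m := by linarith
    have c4 : 0 < m ^ (2 * N) := by positivity
    intro hz
    simp only [eval_add, eval_smul, eval_pow, eval_sub, eval_one, eval_X, smul_eq_mul] at hz
    have c5 : |(R m).eval t| = m ^ (2 * N) * (1 - t) ^ N := by
      rw [show (R m).eval t = -(m ^ (2 * N) * (1 - t) ^ N) by linarith, abs_neg, abs_of_pos]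
      exact mul_pos c4 (hp.trans_le c2)
    rw [c5] at c1
    nlinarith [mul_lt_mul_of_pos_left c3 c4, mul_le_mul_of_nonneg_left c2 (mul_pos c4 m0).le]

end Pool.Agent.H232Z.Zon
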